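import Mathlib

set_option autoImplicit false

open Filter Topology

namespace Pool.Agent.StepIso

variable {X : Type*} [NormedAddCommGroup X] [NormedSpace ℝ X]

/-- The closed unit ball of the dual, as a subset of the weak-star dual. -/
def KK (X : Type*) [NormedAddCommGroup X] [NormedSpace ℝ X] : Set (WeakDual ℝ X) :=
  WeakDual.toStrongDual ⁻¹' Metric.closedBall 0 1

lemma KK_compact : IsCompact (KK X) := WeakDual.isCompact_closedBall 0 1

lemma mem_KK {ν : WeakDual ℝ X} : ν ∈ KK X ↔ ∀ x, ν x ≤ ‖x‖ := by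
  constructor
  · intro h x
    have h1 : ‖WeakDual.toStrongDual ν‖ ≤ 1 := by simpa [KK] using h
    have h2 := (WeakDual.toStrongDual ν).le_opNorm x
    have h3 : ν x ≤ ‖WeakDual.toStrongDual ν x‖ := le_abs_self _
    nlinarith [norm_nonneg x]
  · intro h
    have : ‖WeakDual.toStrongDual ν‖ ≤ 1 := by
      apply ContinuousLinearMap.opNorm_le_bound _ zero_le_one
      intro x
      rw [one_mul]
      show |ν x| ≤ ‖x‖
      rw [abs_le]
      constructor
      · have := h (-x)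
        rw [map_neg, norm_neg] at this
        linarith
      · exact h x
    simpa [KK] using this

lemma KK_abs {ν : WeakDual ℝ X} (h : ν ∈ KK X) (x : X) : |ν x| ≤ ‖x‖ := by
  rw [mem_KK] at h
  rw [abs_le]
  constructor
  · have := h (-x)
    rw [map_neg, norm_neg] at this
    linarith
  · exact h x

lemma exists_norming (x : X) : ∃ ν ∈ KK X, ν x = ‖x‖ := by
  obtain ⟨g, hg, hgx⟩ := exists_dual_vector'' ℝ x
  refine ⟨WeakDual.toStrongDual.symm g, ?_, ?_⟩
  · simpa [KK] using hg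
  · simpa using hgx

/-- the order relation between formal balls -/
def BLe (a b : X × ℝ) : Prop := ‖b.1 - a.1‖ ≤ b.2 - a.2

/-- directed family of formal balls -/
def BDir (D : Set (X × ℝ)) : Prop := ∀ a ∈ D, ∀ b ∈ D, ∃ d ∈ D, BLe a d ∧ BLe b d

lemma BLe.apply {a b : X × ℝ} (h : BLe a b) {ξ : WeakDual ℝ X} (hξ : ξ ∈ KK X) :
    ξ b.1 - b.2 ≤ ξ a.1 - a.2 := by
  have h1 := (mem_KK.mp hξ) (b.1 - a.1)
  rw [map_sub] at h1
  unfold BLe at h
  linarith

/-- the set of common supporting functionals at level `M` -/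
def FF (D : Set (X × ℝ)) (M : ℝ) : Set (WeakDual ℝ X) :=
  {ξ | ξ ∈ KK X ∧ ∀ p ∈ D, p.2 + M ≤ ξ p.1}

lemma FF_nonempty {D : Set (X × ℝ)} (hne : D.Nonempty) (hdir : BDir D) (M : ℝ)
    (hM : ∀ p ∈ D, p.2 + M ≤ ‖p.1‖) : (FF D M).Nonempty := by
  have : Nonempty D := hne.to_subtype
  let t : D → Set (WeakDual ℝ X) := fun p => KK X ∩ {ξ | p.1.2 + M ≤ ξ p.1.1}
  have hclosed : ∀ p : D, IsClosed {ξ : WeakDual ℝ X | p.1.2 + M ≤ ξ p.1.1} := fun p =>
    isClosed_le continuous_const (WeakDual.eval_continuous _)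
  have h := IsCompact.nonempty_iInter_of_directed_nonempty_isCompact_isClosed t ?_ ?_ ?_ ?_
  · obtain ⟨ξ, hξ⟩ := h
    rw [Set.mem_iInter] at hξ
    refine ⟨ξ, (hξ (Classical.arbitrary D)).1, fun p hp => (hξ ⟨p, hp⟩).2⟩
  · intro a b
    obtain ⟨d, hd, had, hbd⟩ := hdir a.1 a.2 b.1 b.2
    refine ⟨⟨d, hd⟩, ?_, ?_⟩
    · rintro ξ ⟨hξ, h1⟩
      refine ⟨hξ, ?_⟩
      have := had.apply hξ
      simp only [Set.mem_ofPred_eq] at h1 ⊢
      linarith
    · rintro ξ ⟨hξ, h1⟩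
      refine ⟨hξ, ?_⟩
      have := hbd.apply hξ
      simp only [Set.mem_ofPred_eq] at h1 ⊢
      linarith
  · intro p
    obtain ⟨ν, hν, hνp⟩ := exists_norming p.1.1
    refine ⟨ν, hν, ?_⟩
    simp only [Set.mem_ofPred_eq]
    rw [hνp]
    exact hM p.1 p.2
  · intro p
    exact KK_compact.inter_right (hclosed p)
  · intro p
    exact KK_compact.isClosed.inter (hclosed p)

instance : LocallyConvexSpace ℝ (WeakDual ℝ X) :=
  inferInstanceAs (LocallyConvexSpace ℝ (WeakBilin (topDualPairing ℝ X)))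

/-- extreme functionals -/
def Ext (X : Type*) [NormedAddCommGroup X] [NormedSpace ℝ X] : Set (WeakDual ℝ X) :=
  (KK X).extremePoints ℝ

lemma exists_ext {D : Set (X × ℝ)} (hne : D.Nonempty) (hdir : BDir D)
    (hD : ∀ p ∈ D, p.2 ≤ ‖p.1‖) : ∃ ξ ∈ Ext X, ∀ p ∈ D, p.2 ≤ ξ p.1 := by
  -- the optimal level
  let V : Set ℝ := (fun p : X × ℝ => ‖p.1‖ - p.2) '' D
  have hVne : V.Nonempty := hne.image _
  have hVbdd : BddBelow V := by
    refine ⟨0, ?_⟩
    rintro _ ⟨p, hp, rfl⟩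
    have := hD p hp
    show (0 : ℝ) ≤ ‖p.1‖ - p.2
    linarith
  set M := sInf V with hMdef
  have hM0 : 0 ≤ M := by
    apply le_csInf hVne
    rintro _ ⟨p, hp, rfl⟩
    have := hD p hp
    show (0 : ℝ) ≤ ‖p.1‖ - p.2
    linarith
  have hMle : ∀ p ∈ D, p.2 + M ≤ ‖p.1‖ := by
    intro p hp
    have : M ≤ ‖p.1‖ - p.2 := csInf_le hVbdd ⟨p, hp, rfl⟩
    linarith
  have hFne := FF_nonempty hne hdir M hMle
  have hFclosed : IsClosed (FF D M) := by
    have : FF D M = KK X ∩ ⋂ p ∈ D, {ξ : WeakDual ℝ X | p.2 + M ≤ ξ p.1} := by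
      ext ξ
      simp [FF]
    rw [this]
    apply KK_compact.isClosed.inter
    apply isClosed_biInter
    intro p _
    exact isClosed_le continuous_const (WeakDual.eval_continuous _)
  have hFcomp : IsCompact (FF D M) := KK_compact.of_isClosed_subset hFclosed (fun ξ hξ => hξ.1)
  obtain ⟨ξ, hξ⟩ := hFcomp.extremePoints_nonempty hFne
  have hext : IsExtreme ℝ (KK X) (FF D M) := by
    refine ⟨fun ξ hξ => hξ.1, ?_⟩
    intro ξ₁ h₁ ξ₂ h₂ ζ hζ hseg
    refine ⟨h₁, ?_⟩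
    by_contra hcon
    push Not at hcon
    obtain ⟨p₁, hp₁, hlt⟩ := hcon
    obtain ⟨a, b, ha, hb, hab, rfl⟩ := hseg
    set η := p₁.2 + M - ξ₁ p₁.1 with hη
    have hη0 : 0 < η := by linarith
    obtain ⟨v, ⟨p₂, hp₂, rfl⟩, hv⟩ := exists_lt_of_csInf_lt hVne
      (show sInf V < M + a * η / (2 * b) by
        have : 0 < a * η / (2 * b) := by positivity
        linarith)
    obtain ⟨p₃, hp₃, h13, h23⟩ := hdir p₁ hp₁ p₂ hp₂
    have e1 := h13.apply h₁
    have e2 := h23.apply h₂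
    have e3 := (mem_KK.mp h₂) p₂.1
    have e4 := hζ.2 p₃ hp₃
    have e5 : (a • ξ₁ + b • ξ₂) p₃.1 = a * ξ₁ p₃.1 + b * ξ₂ p₃.1 := rfl
    rw [e5] at e4
    have e6 : b * (a * η / (2 * b)) = a * η / 2 := by
      field_simp
    simp only at hv
    have e7 : ξ₂ p₃.1 - p₃.2 < M + a * η / (2 * b) := by linarith
    have e8 : ξ₁ p₃.1 - p₃.2 ≤ M - η := by linarith
    have e9 : b * (ξ₂ p₃.1 - p₃.2) ≤ b * M + a * η / 2 := by
      have := mul_le_mul_of_nonneg_left e7.le hb.le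
      rw [mul_add, e6] at this
      exact this
    have e10 : a * (ξ₁ p₃.1 - p₃.2) ≤ a * (M - η) := mul_le_mul_of_nonneg_left e8 ha.le
    have e11 : a * (ξ₁ p₃.1 - p₃.2) + b * (ξ₂ p₃.1 - p₃.2) =
        a * ξ₁ p₃.1 + b * ξ₂ p₃.1 - p₃.2 := by
      have : p₃.2 = (a + b) * p₃.2 := by rw [hab, one_mul]
      linear_combination (1 : ℝ) * this
    have e12 : a * M + b * M = M := by rw [← add_mul, hab, one_mul]
    have e13 : 0 < a * η := by positivity
    nlinarith
  refine ⟨ξ, hext.extremePoints_subset_extremePoints hξ, ?_⟩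
  intro p hp
  have := (extremePoints_subset hξ).2 p hp
  linarith

lemma exists_ext_norming (z : X) : ∃ ν ∈ Ext X, ν z = ‖z‖ := by
  obtain ⟨ν, hν, h⟩ := exists_ext (D := {(z, ‖z‖)}) (Set.singleton_nonempty _) (by
    intro a ha b hb
    rw [Set.mem_singleton_iff] at ha hb
    subst ha; subst hb
    exact ⟨_, Set.mem_singleton _, by simp [BLe], by simp [BLe]⟩) (by
    intro p hp
    rw [Set.mem_singleton_iff] at hp
    subst hp
    exact le_rfl)
  refine ⟨ν, hν, le_antisymm ((mem_KK.mp (extremePoints_subset hν)) z) ?_⟩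
  exact h (z, ‖z‖) (Set.mem_singleton _)

/-- extreme functionals are nearly norming -/
lemma ext_near [Nontrivial X] {ν : WeakDual ℝ X} (hν : ν ∈ Ext X) {η : ℝ} (hη : 0 < η) :
    ∃ v : X, ‖v‖ ≤ 1 ∧ 1 - η < ν v := by
  by_contra hcon
  push Not at hcon
  have hK := extremePoints_subset hν
  -- choose a nonzero small functional
  obtain ⟨x0, hx0⟩ := exists_ne (0 : X)
  obtain ⟨ζ, hζ, hζx⟩ := exists_norming x0
  have hη1 : η ≤ 1 := by
    have := hcon 0 (by simp)
    rw [map_zero] at this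
    linarith
  have hnorm : ∀ x, ν x ≤ (1 - η) * ‖x‖ := by
    intro x
    by_cases hx : x = 0
    · rw [hx, map_zero, norm_zero, mul_zero]
    · have hxn : 0 < ‖x‖ := norm_pos_iff.mpr hx
      have h1 := hcon (‖x‖⁻¹ • x) (by
        rw [norm_smul, norm_inv, norm_norm, inv_mul_cancel₀ hxn.ne'])
      rw [map_smul, smul_eq_mul, inv_mul_le_iff₀ hxn] at h1
      linarith
  have hp : ν + η • ζ ∈ KK X := by
    rw [mem_KK]
    intro x
    have h1 := hnorm x
    have h2 := (mem_KK.mp hζ) x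
    have h3 : (ν + η • ζ) x = ν x + η * ζ x := rfl
    rw [h3]
    nlinarith
  have hm : ν - η • ζ ∈ KK X := by
    rw [mem_KK]
    intro x
    have h1 := hnorm x
    have h2 := KK_abs hζ x
    have h3 : (ν - η • ζ) x = ν x - η * ζ x := rfl
    rw [h3]
    have h4 := (abs_le.mp h2).1
    nlinarith
  have hseg : ν ∈ openSegment ℝ (ν + η • ζ) (ν - η • ζ) := by
    refine ⟨1 / 2, 1 / 2, by norm_num, by norm_num, by norm_num, ?_⟩
    module
  have h := (mem_extremePoints.mp hν).2 _ hp _ hm hseg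
  have h1 : η • ζ = 0 := by
    have := h.1
    rwa [add_eq_left] at this
  have h2 : (η • ζ) x0 = 0 := by rw [h1]; rfl
  have h3 : (η • ζ) x0 = η * ‖x0‖ := by
    rw [← hζx]; rfl
  rw [h3] at h2
  have := norm_pos_iff.mpr hx0
  have := mul_pos hη this
  linarith

end Pool.Agent.StepIso
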