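import Mathlib
import Pool.Agent.StepIso.Dual

set_option autoImplicit false

open Filter Topology

namespace Pool.Agent.StepIso

variable {X : Type*} [NormedAddCommGroup X] [NormedSpace ℝ X]

/-- Directedness of balls in an extreme half space, real radii. -/
lemma directed_real [Nontrivial X] {μ : WeakDual ℝ X} (hμ : μ ∈ Ext X) (c1 c2 : X)
    (k1 k2 s : ℝ) (h1 : s < μ c1 - k1) (h2 : s < μ c2 - k2) :
    ∃ (c : X) (r : ℝ), ‖c - c1‖ ≤ r - k1 ∧ ‖c - c2‖ ≤ r - k2 ∧ s < μ c - r := by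
  by_contra hcon
  push Not at hcon
  have hK := extremePoints_subset hμ
  have hKle := mem_KK.mp hK
  -- the linear map defining the domain
  let ℓ : X × X × ℝ →ₗ[ℝ] X :=
    { toFun := fun u => (u.1 + u.2.2 • c1) - (u.2.1 + u.2.2 • c2)
      map_add' := by
        intro u v
        simp only [Prod.fst_add, Prod.snd_add]
        module
      map_smul' := by
        intro a u
        simp only [Prod.smul_fst, Prod.smul_snd, RingHom.id_apply, smul_eq_mul]
        module }
  let F : X × X × ℝ →ₗ[ℝ] ℝ :=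
    { toFun := fun u => μ (u.1 + u.2.2 • c1) - s * u.2.2
      map_add' := by
        intro u v
        simp only [Prod.fst_add, Prod.snd_add, map_add, map_smul, smul_eq_mul]
        ring
      map_smul' := by
        intro a u
        simp only [Prod.smul_fst, Prod.smul_snd, RingHom.id_apply, smul_eq_mul, map_add, map_smul]
        ring }
  let N : X × X × ℝ → ℝ := fun u => max (‖u.1‖ + k1 * u.2.2) (‖u.2.1‖ + k2 * u.2.2)
  obtain ⟨g, hg1, hg2⟩ := exists_extension_of_le_sublinear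
    ⟨LinearMap.ker ℓ, F.domRestrict (LinearMap.ker ℓ)⟩ N
    (by
      intro a ha u
      show max (‖a • u.1‖ + k1 * (a * u.2.2)) (‖a • u.2.1‖ + k2 * (a * u.2.2)) =
        a * max (‖u.1‖ + k1 * u.2.2) (‖u.2.1‖ + k2 * u.2.2)
      rw [norm_smul, norm_smul, Real.norm_eq_abs, abs_of_pos ha, mul_max_of_nonneg _ _ ha.le]
      congr 1 <;> ring)
    (by
      intro u v
      show max (‖u.1 + v.1‖ + k1 * (u.2.2 + v.2.2)) (‖u.2.1 + v.2.1‖ + k2 * (u.2.2 + v.2.2)) ≤
        max (‖u.1‖ + k1 * u.2.2) (‖u.2.1‖ + k2 * u.2.2) +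
        max (‖v.1‖ + k1 * v.2.2) (‖v.2.1‖ + k2 * v.2.2)
      apply max_le
      · have e1 := norm_add_le u.1 v.1
        have e2 := le_max_left (‖u.1‖ + k1 * u.2.2) (‖u.2.1‖ + k2 * u.2.2)
        have e3 := le_max_left (‖v.1‖ + k1 * v.2.2) (‖v.2.1‖ + k2 * v.2.2)
        linarith
      · have e1 := norm_add_le u.2.1 v.2.1
        have e2 := le_max_right (‖u.1‖ + k1 * u.2.2) (‖u.2.1‖ + k2 * u.2.2)
        have e3 := le_max_right (‖v.1‖ + k1 * v.2.2) (‖v.2.1‖ + k2 * v.2.2)
        linarith)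
    (by
      rintro ⟨⟨u1, u2, t⟩, hu⟩
      have hu' : (u1 + t • c1) - (u2 + t • c2) = 0 := hu
      show μ (u1 + t • c1) - s * t ≤ max (‖u1‖ + k1 * t) (‖u2‖ + k2 * t)
      rcases le_or_gt t 0 with ht | ht
      · refine le_trans ?_ (le_max_left _ _)
        have e1 := hKle u1
        rw [map_add, map_smul, smul_eq_mul]
        nlinarith
      · -- scale
        set r := max (‖u1‖ + k1 * t) (‖u2‖ + k2 * t) with hr
        have ht' : t ≠ 0 := ht.ne'
        have hc1 : t⁻¹ • (u1 + t • c1) - c1 = t⁻¹ • u1 := by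
          rw [smul_add, smul_smul, inv_mul_cancel₀ ht', one_smul, add_sub_cancel_right]
        have hc2 : t⁻¹ • (u1 + t • c1) - c2 = t⁻¹ • u2 := by
          rw [sub_eq_zero.mp hu', smul_add, smul_smul, inv_mul_cancel₀ ht', one_smul,
            add_sub_cancel_right]
        have key := hcon (t⁻¹ • (u1 + t • c1)) (t⁻¹ * r) (by
          rw [hc1, norm_smul, norm_inv, Real.norm_eq_abs, abs_of_pos ht]
          have := le_max_left (‖u1‖ + k1 * t) (‖u2‖ + k2 * t)
          rw [← hr] at this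
          have h3 := mul_le_mul_of_nonneg_left this (inv_nonneg.mpr ht.le)
          have h4 : t⁻¹ * (‖u1‖ + k1 * t) = t⁻¹ * ‖u1‖ + k1 := by field_simp
          linarith) (by
          rw [hc2, norm_smul, norm_inv, Real.norm_eq_abs, abs_of_pos ht]
          have := le_max_right (‖u1‖ + k1 * t) (‖u2‖ + k2 * t)
          rw [← hr] at this
          have h3 := mul_le_mul_of_nonneg_left this (inv_nonneg.mpr ht.le)
          have h4 : t⁻¹ * (‖u2‖ + k2 * t) = t⁻¹ * ‖u2‖ + k2 := by field_simp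
          linarith)
        rw [map_smul, smul_eq_mul, ← mul_sub, inv_mul_le_iff₀ ht] at key
        linarith)
  -- consequences
  have ga : ∀ x : X, g (x, x, 0) = μ x := by
    intro x
    have hmem : ((x, x, 0) : X × X × ℝ) ∈ LinearMap.ker ℓ := by
      show (x + (0 : ℝ) • c1) - (x + (0 : ℝ) • c2) = 0
      simp
    have := hg1 ⟨_, hmem⟩
    rw [this]
    show μ (x + (0 : ℝ) • c1) - s * 0 = μ x
    simp
  have gc : g (-c1, -c2, 1) = -s := by
    have hmem : ((-c1, -c2, 1) : X × X × ℝ) ∈ LinearMap.ker ℓ := by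
      show (-c1 + (1 : ℝ) • c1) - (-c2 + (1 : ℝ) • c2) = 0
      simp
    have := hg1 ⟨_, hmem⟩
    rw [this]
    show μ (-c1 + (1 : ℝ) • c1) - s * 1 = -s
    simp
  let n1 : X →ₗ[ℝ] ℝ := g.comp (LinearMap.inl ℝ X (X × ℝ))
  let n2 : X →ₗ[ℝ] ℝ := g.comp ((LinearMap.inr ℝ X (X × ℝ)).comp (LinearMap.inl ℝ X ℝ))
  have hn1 : ∀ x, n1 x = g (x, 0, 0) := fun x => rfl
  have hn2 : ∀ x, n2 x = g (0, x, 0) := fun x => rfl
  have gsplit : ∀ (x y : X) (t : ℝ), g (x, y, t) = n1 x + n2 y + t * g (0, 0, 1) := by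
    intro x y t
    have e : ((x, y, t) : X × X × ℝ) = (x, 0, 0) + (0, y, 0) + t • (0, 0, 1) := by
      simp
    rw [e, map_add, map_add, map_smul, hn1, hn2, smul_eq_mul]
  have gb : ∀ x y : X, n1 x + n2 y ≤ max ‖x‖ ‖y‖ := by
    intro x y
    have := hg2 (x, y, 0)
    rw [gsplit, zero_mul, add_zero] at this
    simpa [N] using this
  have hb1 : ∀ x, ‖n1 x‖ ≤ 1 * ‖x‖ := by
    intro x
    rw [one_mul, Real.norm_eq_abs, abs_le]
    have e1 := gb x 0
    have e2 := gb (-x) 0
    rw [map_zero, norm_zero, max_eq_left (norm_nonneg _)] at e1 e2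
    rw [map_neg, norm_neg] at e2
    constructor <;> linarith
  have hb2 : ∀ x, ‖n2 x‖ ≤ 1 * ‖x‖ := by
    intro x
    rw [one_mul, Real.norm_eq_abs, abs_le]
    have e1 := gb 0 x
    have e2 := gb 0 (-x)
    rw [map_zero, norm_zero, max_eq_right (norm_nonneg _)] at e1 e2
    rw [map_neg, norm_neg] at e2
    constructor <;> linarith
  let m1 : X →L[ℝ] ℝ := n1.mkContinuous 1 hb1
  let m2 : X →L[ℝ] ℝ := n2.mkContinuous 1 hb2
  have hm1 : ∀ x, m1 x = n1 x := fun x => rfl
  have hm2 : ∀ x, m2 x = n2 x := fun x => rfl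
  have hsum : ∀ x, m1 x + m2 x = μ x := by
    intro x
    rw [hm1, hm2, ← ga x, gsplit, zero_mul, add_zero]
  -- norms
  have hnear : ∀ (m : X →L[ℝ] ℝ) (η : ℝ), 0 < η → ∃ x, ‖x‖ ≤ 1 ∧ ‖m‖ - η < m x := by
    intro m η hη
    by_contra hc
    push Not at hc
    have h0 : 0 ≤ ‖m‖ - η := by
      have := hc 0 (by simp)
      simpa using this
    have : ‖m‖ ≤ ‖m‖ - η := by
      apply m.opNorm_le_bound h0
      intro x
      by_cases hx : x = 0
      · rw [hx]; simp
      · have hxn : 0 < ‖x‖ := norm_pos_iff.mpr hx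
        have e1 := hc (‖x‖⁻¹ • x) (by
          rw [norm_smul, norm_inv, norm_norm, inv_mul_cancel₀ hxn.ne'])
        have e2 := hc (-(‖x‖⁻¹ • x)) (by
          rw [norm_neg, norm_smul, norm_inv, norm_norm, inv_mul_cancel₀ hxn.ne'])
        rw [map_smul, smul_eq_mul, inv_mul_le_iff₀ hxn] at e1
        rw [map_neg, map_smul, smul_eq_mul, ← mul_neg, inv_mul_le_iff₀ hxn] at e2
        rw [Real.norm_eq_abs, abs_le]
        constructor <;> linarith
    linarith
  have hle1 : ‖m1‖ + ‖m2‖ ≤ 1 := by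
    by_contra hc
    push Not at hc
    obtain ⟨x, hx, hx'⟩ := hnear m1 ((‖m1‖ + ‖m2‖ - 1) / 2) (by linarith)
    obtain ⟨y, hy, hy'⟩ := hnear m2 ((‖m1‖ + ‖m2‖ - 1) / 2) (by linarith)
    have := gb x y
    rw [← hm1, ← hm2] at this
    have := max_le hx hy
    linarith
  have hge1 : 1 ≤ ‖m1‖ + ‖m2‖ := by
    by_contra hc
    push Not at hc
    obtain ⟨v, hv, hv'⟩ := ext_near hμ (η := 1 - (‖m1‖ + ‖m2‖)) (by linarith)
    rw [← hsum v] at hv'
    have e1 := (le_abs_self _).trans (m1.le_opNorm v)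
    have e2 := (le_abs_self _).trans (m2.le_opNorm v)
    have e3 : ‖m1‖ * ‖v‖ ≤ ‖m1‖ := mul_le_of_le_one_right (norm_nonneg _) hv
    have e4 : ‖m2‖ * ‖v‖ ≤ ‖m2‖ := mul_le_of_le_one_right (norm_nonneg _) hv
    linarith
  set a := ‖m1‖ with ha
  set b := ‖m2‖ with hb
  have hab : a + b = 1 := le_antisymm hle1 hge1
  have ha0 : 0 ≤ a := norm_nonneg _
  have hb0 : 0 ≤ b := norm_nonneg _
  -- m1 = a μ
  have hprop : ∀ x, m1 x = a * μ x ∧ m2 x = b * μ x := by
    rcases ha0.eq_or_lt with h | hapos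
    · intro x
      have e : m1 = 0 := norm_eq_zero.mp (ha.symm.trans h.symm)
      have e2 : m1 x = 0 := by rw [e]; rfl
      have e3 : b = 1 := by linarith
      have := hsum x
      rw [e2, ← h, e3]
      constructor
      · ring
      · linarith
    · rcases hb0.eq_or_lt with h | hbpos
      · intro x
        have e : m2 = 0 := norm_eq_zero.mp (hb.symm.trans h.symm)
        have e2 : m2 x = 0 := by rw [e]; rfl
        have e3 : a = 1 := by linarith
        have := hsum x
        rw [e2, ← h, e3]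
        constructor
        · linarith
        · ring
      · -- extremality
        let ξ₁ : WeakDual ℝ X := WeakDual.toStrongDual.symm (a⁻¹ • m1)
        let ξ₂ : WeakDual ℝ X := WeakDual.toStrongDual.symm (b⁻¹ • m2)
        have hξ₁ : ∀ x, ξ₁ x = a⁻¹ * m1 x := fun x => rfl
        have hξ₂ : ∀ x, ξ₂ x = b⁻¹ * m2 x := fun x => rfl
        have k1' : ξ₁ ∈ KK X := by
          rw [mem_KK]
          intro x
          rw [hξ₁, inv_mul_le_iff₀ hapos]
          exact (le_abs_self _).trans (m1.le_opNorm x)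
        have k2' : ξ₂ ∈ KK X := by
          rw [mem_KK]
          intro x
          rw [hξ₂, inv_mul_le_iff₀ hbpos]
          exact (le_abs_self _).trans (m2.le_opNorm x)
        have hseg : μ ∈ openSegment ℝ ξ₁ ξ₂ := by
          refine ⟨a, b, hapos, hbpos, hab, ?_⟩
          apply DFunLike.ext
          intro x
          show a * ξ₁ x + b * ξ₂ x = μ x
          rw [hξ₁, hξ₂, ← mul_assoc, ← mul_assoc, mul_inv_cancel₀ hapos.ne',
            mul_inv_cancel₀ hbpos.ne', one_mul, one_mul, hsum]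
        have hE := (mem_extremePoints.mp hμ).2 _ k1' _ k2' hseg
        intro x
        constructor
        · rw [← hE.1, hξ₁, ← mul_assoc, mul_inv_cancel₀ hapos.ne', one_mul]
        · rw [← hE.2, hξ₂, ← mul_assoc, mul_inv_cancel₀ hbpos.ne', one_mul]
  -- the constant
  set κ := g (0, 0, 1) with hκ
  have hκeq : κ = -s + a * μ c1 + b * μ c2 := by
    have e := gsplit (-c1) (-c2) 1
    rw [gc, one_mul, map_neg, map_neg, ← hm1, ← hm2, (hprop c1).1, (hprop c2).2] at e
    linarith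
  set gap := a * (μ c1 - k1 - s) + b * (μ c2 - k2 - s) with hgap
  have hgappos : 0 < gap := by
    rcases ha0.eq_or_lt with h | hapos
    · have e3 : b = 1 := by linarith
      rw [hgap, ← h, e3]
      linarith
    · have e1 : 0 < a * (μ c1 - k1 - s) := mul_pos hapos (by linarith)
      have e2 : 0 ≤ b * (μ c2 - k2 - s) := mul_nonneg hb0 (by linarith)
      linarith
  set R := max k1 k2 with hR
  have hR1 : k1 ≤ R := le_max_left _ _
  have hR2 : k2 ≤ R := le_max_right _ _
  have hRk : 0 ≤ R - (a * k1 + b * k2) := by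
    have e1 := mul_le_mul_of_nonneg_left hR1 ha0
    have e2 := mul_le_mul_of_nonneg_left hR2 hb0
    have e3 : a * R + b * R = R := by rw [← add_mul, hab, one_mul]
    linarith
  obtain ⟨v, hv, hv'⟩ := ext_near hμ (η := gap / (R - (a * k1 + b * k2) + 1)) (by positivity)
  have e := hg2 ((R - k1) • v, (R - k2) • v, 1)
  rw [gsplit, one_mul, map_smul, map_smul, smul_eq_mul, smul_eq_mul, ← hm1, ← hm2,
    (hprop v).1, (hprop v).2] at e
  have eN : N ((R - k1) • v, (R - k2) • v, 1) ≤ R := by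
    show max (‖(R - k1) • v‖ + k1 * 1) (‖(R - k2) • v‖ + k2 * 1) ≤ R
    rw [norm_smul, norm_smul, Real.norm_eq_abs, Real.norm_eq_abs,
      abs_of_nonneg (by linarith), abs_of_nonneg (by linarith)]
    apply max_le
    · have : (R - k1) * ‖v‖ ≤ R - k1 := mul_le_of_le_one_right (by linarith) hv
      linarith
    · have : (R - k2) * ‖v‖ ≤ R - k2 := mul_le_of_le_one_right (by linarith) hv
      linarith
  have e2 := e.trans eN
  -- gap ≤ (R - (a k1 + b k2)) (1 - μ v)
  have e3 : gap ≤ (R - (a * k1 + b * k2)) * (1 - μ v) := by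
    have h3 : gap = κ - (a * k1 + b * k2) := by
      rw [hgap, hκeq]
      linear_combination (-s) * hab
    have h4 : (R - k1) * (a * μ v) + (R - k2) * (b * μ v) + κ =
        R * μ v - (a * k1 + b * k2) * μ v + κ := by
      linear_combination (R * μ v) * hab
    rw [h4] at e2
    rw [h3]
    linarith
  have hpos1 : 0 < R - (a * k1 + b * k2) + 1 := by linarith
  have hμv : μ v ≤ 1 := ((hKle v).trans hv)
  have e4 : 1 - μ v < gap / (R - (a * k1 + b * k2) + 1) := by linarith
  rw [lt_div_iff₀ hpos1] at e4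
  nlinarith

/-- Directedness with integer radii. -/
lemma directed_nat [Nontrivial X] {μ : WeakDual ℝ X} (hμ : μ ∈ Ext X) (c1 c2 : X)
    (k1 k2 : ℕ) (s : ℝ) (h1 : s < μ c1 - k1) (h2 : s < μ c2 - k2) :
    ∃ (c : X) (k : ℕ), ‖c - c1‖ ≤ k - k1 ∧ ‖c - c2‖ ≤ k - k2 ∧ s < μ c - k := by
  obtain ⟨c, r, hc1, hc2, hs⟩ := directed_real hμ c1 c2 k1 k2 s h1 h2
  have hr : 0 ≤ r := by
    have := norm_nonneg (c - c1)
    have : (0 : ℝ) ≤ k1 := by positivity
    linarith
  set k := ⌈r⌉₊ with hk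
  have hkr : r ≤ k := Nat.le_ceil r
  obtain ⟨v, hv, hv'⟩ := ext_near hμ (η := (μ c - r - s) / (k - r + 1))
    (div_pos (by linarith) (by linarith))
  refine ⟨c + ((k : ℝ) - r) • v, k, ?_, ?_, ?_⟩
  · have e : c + ((k : ℝ) - r) • v - c1 = (c - c1) + ((k : ℝ) - r) • v := by abel
    rw [e]
    refine (norm_add_le _ _).trans ?_
    rw [norm_smul, Real.norm_eq_abs, abs_of_nonneg (by linarith)]
    have : ((k : ℝ) - r) * ‖v‖ ≤ k - r := mul_le_of_le_one_right (by linarith) hv
    linarith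
  · have e : c + ((k : ℝ) - r) • v - c2 = (c - c2) + ((k : ℝ) - r) • v := by abel
    rw [e]
    refine (norm_add_le _ _).trans ?_
    rw [norm_smul, Real.norm_eq_abs, abs_of_nonneg (by linarith)]
    have : ((k : ℝ) - r) * ‖v‖ ≤ k - r := mul_le_of_le_one_right (by linarith) hv
    linarith
  · rw [map_add, map_smul, smul_eq_mul]
    have hpos : 0 < (k : ℝ) - r + 1 := by linarith
    have hμv : μ v ≤ 1 := ((mem_KK.mp (extremePoints_subset hμ)) v).trans hv
    have e4 : 1 - μ v < (μ c - r - s) / (k - r + 1) := by linarith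
    rw [lt_div_iff₀ hpos] at e4
    nlinarith

end Pool.Agent.StepIso
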