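import Mathlib
import Pool.Agent.StepIso.Dual
import Pool.Agent.StepIso.Directed

set_option autoImplicit false

open Filter Topology

namespace Pool.Agent.StepIso

variable {X : Type*} [NormedAddCommGroup X] [NormedSpace ℝ X]

/-- open balls of integer radius are preserved -/
def PLt (T : X ≃ X) : Prop := ∀ (n : ℕ) (x y : X), ‖x - y‖ < n ↔ ‖T x - T y‖ < n

lemma PLt.symm {T : X ≃ X} (h : PLt T) : PLt T.symm := by
  intro n x y
  have := h n (T.symm x) (T.symm y)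
  rw [T.apply_symm_apply, T.apply_symm_apply] at this
  exact this.symm

lemma PLt.le {T : X ≃ X} (h : PLt T) (n : ℕ) (x y : X) (hxy : ‖x - y‖ ≤ n) :
    ‖T x - T y‖ ≤ n := by
  by_contra hcon
  push Not at hcon
  set L := ‖T x - T y‖ with hL
  have hn : (0 : ℝ) ≤ n := Nat.cast_nonneg n
  have hLpos : 0 < L := lt_of_le_of_lt hn hcon
  -- choose rho
  obtain ⟨ρ, hρ0, hρ1, hρ2⟩ : ∃ ρ : ℝ, 0 ≤ ρ ∧ ρ < 1 ∧ n + 1 - L ≤ ρ := by
    refine ⟨max 0 (n + 1 - L), le_max_left _ _, ?_, le_max_right _ _⟩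
    apply max_lt zero_lt_one
    linarith
  set w := T x + (ρ / L) • (T x - T y) with hw
  have h1 : ‖w - T x‖ < (1 : ℕ) := by
    have : w - T x = (ρ / L) • (T x - T y) := by rw [hw]; abel
    rw [this, norm_smul, ← hL, Real.norm_eq_abs, abs_of_nonneg (by positivity),
      div_mul_cancel₀ _ hLpos.ne', Nat.cast_one]
    exact hρ1
  have h2 : ‖w - T y‖ = L + ρ := by
    have : w - T y = (1 + ρ / L) • (T x - T y) := by rw [hw]; module
    rw [this, norm_smul, ← hL, Real.norm_eq_abs, abs_of_nonneg (by positivity), add_mul,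
      div_mul_cancel₀ _ hLpos.ne', one_mul]
  have h3 : ‖T.symm w - x‖ < (1 : ℕ) := by
    rw [h 1, T.apply_symm_apply]
    exact h1
  have h4 : ¬ ‖T.symm w - y‖ < ((n + 1 : ℕ) : ℝ) := by
    rw [h (n + 1), T.apply_symm_apply, h2]
    push_cast
    linarith
  apply h4
  have e : T.symm w - y = (T.symm w - x) + (x - y) := by abel
  rw [e]
  refine lt_of_le_of_lt (norm_add_le _ _) ?_
  push_cast
  rw [Nat.cast_one] at h3
  linarith

/-- approximating a point in a half space by an integer ball -/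
lemma ball_approx [Nontrivial X] {ν : WeakDual ℝ X} (hν : ν ∈ Ext X) (w : X) (s : ℝ)
    (h : s < ν w) (k : ℕ) (hk : 1 ≤ k) : ∃ c : X, ‖w - c‖ < k ∧ s < ν c - k := by
  have hk' : (1 : ℝ) ≤ k := by exact_mod_cast hk
  set m := min (ν w - s) 1 with hm
  have hm0 : 0 < m := lt_min (by linarith) one_pos
  have hm1 : m ≤ 1 := min_le_right _ _
  have hm2 : m ≤ ν w - s := min_le_left _ _
  obtain ⟨v, hv, hv'⟩ := ext_near hν (η := m / (4 * k)) (by positivity)
  set ρ : ℝ := k - m / 4 with hρ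
  have hρ0 : 0 ≤ ρ := by linarith
  refine ⟨w + ρ • v, ?_, ?_⟩
  · have e : w - (w + ρ • v) = -(ρ • v) := by abel
    rw [e, norm_neg, norm_smul, Real.norm_eq_abs, abs_of_nonneg hρ0]
    have : ρ * ‖v‖ ≤ ρ := mul_le_of_le_one_right hρ0 hv
    linarith
  · rw [map_add, map_smul, smul_eq_mul]
    have e1 : ρ * (1 - m / (4 * k)) ≤ ρ * ν v := mul_le_mul_of_nonneg_left hv'.le hρ0
    have e2 : ρ * (m / (4 * k)) ≤ m / 4 := by
      have : ρ * (m / (4 * k)) ≤ k * (m / (4 * k)) :=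
        mul_le_mul_of_nonneg_right (by linarith) (by positivity)
      have e3 : (k : ℝ) * (m / (4 * k)) = m / 4 := by field_simp
      linarith
    linarith

/-- two formal balls in the half space `{ν > s}` -/
def HD (ν : WeakDual ℝ X) (s : ℝ) : Set (X × ℕ) := {p | 1 ≤ p.2 ∧ s < ν p.1 - p.2}

/-- image family -/
def ID (T : X ≃ X) (z : X) (ν : WeakDual ℝ X) (s : ℝ) : Set (X × ℝ) :=
  (fun p : X × ℕ => ((T p.1 - z, (p.2 : ℝ)) : X × ℝ)) '' HD ν s

lemma HD_nonempty [Nontrivial X] {ν : WeakDual ℝ X} (hν : ν ∈ Ext X) (s : ℝ) :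
    (HD ν s).Nonempty := by
  obtain ⟨v, hv, hv'⟩ := ext_near hν (η := 1 / 2) (by norm_num)
  have hv2 : (1 : ℝ) / 2 < ν v := by linarith
  obtain ⟨c, hc1, hc2⟩ := ball_approx hν ((2 * (|s| + 1)) • v) s (by
    rw [map_smul, smul_eq_mul]
    have := le_abs_self s
    have := abs_nonneg s
    nlinarith) 1 le_rfl
  exact ⟨(c, 1), le_rfl, hc2⟩

lemma ID_dir [Nontrivial X] {T : X ≃ X} (hT : PLt T) (z : X) {ν : WeakDual ℝ X}
    (hν : ν ∈ Ext X) (s : ℝ) : BDir (ID T z ν s) := by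
  rintro _ ⟨⟨c1, k1⟩, ⟨hk1, h1⟩, rfl⟩ _ ⟨⟨c2, k2⟩, ⟨hk2, h2⟩, rfl⟩
  obtain ⟨c, k, e1, e2, e3⟩ := directed_nat hν c1 c2 k1 k2 s h1 h2
  have hkk1 : k1 ≤ k := by
    have := (norm_nonneg _).trans e1
    have : (k1 : ℝ) ≤ k := by linarith
    exact_mod_cast this
  have hkk2 : k2 ≤ k := by
    have := (norm_nonneg _).trans e2
    have : (k2 : ℝ) ≤ k := by linarith
    exact_mod_cast this
  refine ⟨_, ⟨(c, k), ⟨le_trans hk1 hkk1, e3⟩, rfl⟩, ?_, ?_⟩
  · show ‖(T c - z) - (T c1 - z)‖ ≤ (k : ℝ) - k1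
    rw [sub_sub_sub_cancel_right, ← Nat.cast_sub hkk1]
    apply hT.le
    rw [Nat.cast_sub hkk1]
    exact e1
  · show ‖(T c - z) - (T c2 - z)‖ ≤ (k : ℝ) - k2
    rw [sub_sub_sub_cancel_right, ← Nat.cast_sub hkk2]
    apply hT.le
    rw [Nat.cast_sub hkk2]
    exact e2

lemma ID_norm {T : X ≃ X} (hT : PLt T) (x : X) {ν : WeakDual ℝ X}
    (hν : ν ∈ KK X) (s : ℝ) (hx : ν x ≤ s) : ∀ p ∈ ID T (T x) ν s, p.2 ≤ ‖p.1‖ := by
  rintro _ ⟨⟨c, k⟩, ⟨hk, h⟩, rfl⟩
  show (k : ℝ) ≤ ‖T c - T x‖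
  by_contra hcon
  push Not at hcon
  rw [← hT] at hcon
  have := (mem_KK.mp hν) (c - x)
  rw [map_sub] at this
  simp only at h
  linarith

/-- a functional supporting the image of a half space -/
lemma half_space [Nontrivial X] {T : X ≃ X} (hT : PLt T) (x : X) {μ : WeakDual ℝ X}
    (hμ : μ ∈ Ext X) : ∃ ξ : WeakDual ℝ X, ξ ∈ KK X ∧
      ∀ y, μ x < μ y → ξ (T x) < ξ (T y) := by
  obtain ⟨ξ, hξ, h⟩ := FF_nonempty (D := ID T (T x) μ (μ x)) ((HD_nonempty hμ _).image _)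
    (ID_dir hT _ hμ _) 0 (by
      intro p hp
      rw [add_zero]
      exact ID_norm hT x (extremePoints_subset hμ) _ le_rfl p hp)
  refine ⟨ξ, hξ, ?_⟩
  intro y hy
  obtain ⟨c, hc1, hc2⟩ := ball_approx hμ y (μ x) hy 1 le_rfl
  have e1 := h (T c - T x, ((1 : ℕ) : ℝ)) ⟨(c, 1), ⟨le_rfl, hc2⟩, rfl⟩
  simp only [add_zero] at e1
  rw [map_sub] at e1
  rw [hT] at hc1
  have e2 := (mem_KK.mp hξ) (T c - T y)
  rw [norm_sub_rev, map_sub] at e2
  linarith

/-- a functional bounded below on a half space is a nonnegative multiple -/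
lemma lt_of_half {ν ξ : WeakDual ℝ X} (hν : ∃ u, 0 < ν u) (n b : ℝ)
    (h : ∀ w, n < ν w → b ≤ ξ w) {p q : X} (hpq : ξ p < ξ q) : ν p < ν q := by
  obtain ⟨u, hu⟩ := hν
  -- a point far in the half space
  obtain ⟨w0, hw0'⟩ : ∃ w0, ν w0 = |n| + 1 := by
    refine ⟨((|n| + 1) / ν u) • u, ?_⟩
    rw [map_smul, smul_eq_mul, div_mul_cancel₀ _ hu.ne']
  have hn : n < ν w0 := by
    rw [hw0']
    have := le_abs_self n
    linarith
  have hn0 : 0 < ν w0 := by rw [hw0']; positivity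
  have hker : ∀ z, ν z = 0 → ξ z = 0 := by
    intro z hz
    by_contra hne
    have := h (w0 + ((b - ξ w0 - 1) / ξ z) • z) (by
      rw [map_add, map_smul, hz, smul_zero, add_zero]
      exact hn)
    rw [map_add, map_smul, smul_eq_mul, div_mul_cancel₀ _ hne] at this
    linarith
  have hlin : ∀ z, ξ z = (ξ w0 / ν w0) * ν z := by
    intro z
    have := hker (z - (ν z / ν w0) • w0) (by
      rw [map_sub, map_smul, smul_eq_mul, div_mul_cancel₀ _ hn0.ne', sub_self])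
    rw [map_sub, map_smul, smul_eq_mul, sub_eq_zero] at this
    rw [this]
    ring
  have hξ0 : 0 ≤ ξ w0 := by
    by_contra hneg
    push Not at hneg
    -- take a large multiple
    set t := 1 + |b| / (-ξ w0) + 1 with ht
    have h1 : 1 ≤ t := by
      have : 0 ≤ |b| / (-ξ w0) := div_nonneg (abs_nonneg _) (by linarith)
      linarith
    have h2 := h (t • w0) (by
      rw [map_smul, smul_eq_mul]
      nlinarith)
    rw [map_smul, smul_eq_mul] at h2
    have h3 : t * ξ w0 = 2 * ξ w0 - |b| := by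
      have h4 : |b| / (-ξ w0) * (-ξ w0) = |b| := div_mul_cancel₀ _ (by linarith)
      rw [ht]
      linear_combination (-1 : ℝ) * h4
    rw [h3] at h2
    have := neg_abs_le b
    linarith
  rw [hlin p, hlin q] at hpq
  have hc : 0 ≤ ξ w0 / ν w0 := div_nonneg hξ0 hn0.le
  by_contra hcon
  push Not at hcon
  have := mul_le_mul_of_nonneg_left hcon hc
  linarith

lemma ext_pos [Nontrivial X] {ν : WeakDual ℝ X} (hν : ν ∈ Ext X) : ∃ u, 0 < ν u := by
  obtain ⟨v, hv, hv'⟩ := ext_near hν (η := 1) (by norm_num)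
  exact ⟨v, by linarith⟩

/-- the coordinate correspondence -/
lemma coord [Nontrivial X] {T : X ≃ X} (hT : PLt T) (hT0 : T 0 = 0) {ν : WeakDual ℝ X}
    (hν : ν ∈ Ext X) : ∃ μ : WeakDual ℝ X, μ ∈ Ext X ∧
      (∀ x y, μ x < μ y → ν (T x) < ν (T y)) ∧
      (∀ x y, ν (T x) < ν (T y) → μ x < μ y) ∧
      (∀ (n : ℕ) x, (n : ℝ) < ν (T x) → (n : ℝ) ≤ μ x) := by
  have hS : PLt T.symm := hT.symm
  have hS0 : T.symm 0 = 0 := by rw [Equiv.symm_apply_eq]; exact hT0.symm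
  obtain ⟨μ, hμ, h⟩ := exists_ext (D := ID T.symm (T.symm 0) ν 0) ((HD_nonempty hν _).image _)
    (ID_dir hS _ hν _) (ID_norm hS 0 (extremePoints_subset hν) 0 (by rw [map_zero]))
  have I1 : ∀ x, 0 < ν (T x) → 0 < μ x := by
    intro x hx
    obtain ⟨c, hc1, hc2⟩ := ball_approx hν (T x) 0 hx 1 le_rfl
    have e1 := h (T.symm c - T.symm 0, ((1 : ℕ) : ℝ)) ⟨(c, 1), ⟨le_rfl, hc2⟩, rfl⟩
    simp only [hS0, sub_zero] at e1
    rw [hS, T.symm_apply_apply] at hc1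
    have e2 := (mem_KK.mp (extremePoints_subset hμ)) (T.symm c - x)
    rw [norm_sub_rev, map_sub] at e2
    linarith
  have I2 : ∀ (n : ℕ) x, (n : ℝ) < ν (T x) → (n : ℝ) ≤ μ x := by
    intro n x hx
    rcases Nat.eq_zero_or_pos n with hn | hn
    · subst hn
      rw [Nat.cast_zero] at hx ⊢
      exact (I1 x hx).le
    · have e1 := h (T.symm (T x) - T.symm 0, (n : ℝ)) ⟨(T x, n), ⟨hn, by simpa using hx⟩, rfl⟩
      simpa only [hS0, sub_zero, T.symm_apply_apply] using e1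
  have M1 : ∀ x y, μ x < μ y → ν (T x) < ν (T y) := by
    intro x y hxy
    obtain ⟨ξ, hξ, hξ'⟩ := half_space hT x hμ
    obtain ⟨n, hn⟩ := exists_nat_gt (μ x)
    apply lt_of_half (ext_pos hν) (n : ℝ) (ξ (T x)) _ (hξ' y hxy)
    intro w hw
    have e1 := I2 n (T.symm w) (by rwa [T.apply_symm_apply])
    have e2 := hξ' (T.symm w) (lt_of_lt_of_le hn e1)
    rw [T.apply_symm_apply] at e2
    exact e2.le
  refine ⟨μ, hμ, M1, ?_, I2⟩
  intro x y hxy
  obtain ⟨ξ, hξ, hξ'⟩ := half_space hS (T x) hν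
  have e := hξ' (T y) hxy
  rw [T.symm_apply_apply, T.symm_apply_apply] at e
  apply lt_of_half (ext_pos hμ) (μ y) (ξ x) _ e
  intro w hw
  have e1 := M1 y w hw
  have e2 := hξ' (T w) (hxy.trans e1)
  rw [T.symm_apply_apply, T.symm_apply_apply] at e2
  exact e2.le

end Pool.Agent.StepIso
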