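import Mathlib
import Pool.Agent.StepIso.Dual

set_option autoImplicit false

open Filter Topology

namespace Pool.Agent.StepIso

variable {X : Type*} [NormedAddCommGroup X] [NormedSpace ℝ X]

/-- near minimiser choice -/
lemma exists_pick (C : ℕ → Set X) (hne : ∀ k, (C k).Nonempty) (ε : ℕ → ℝ) (hε : ∀ k, 0 < ε k)
    (k : ℕ) (s : X) :
    ∃ c ∈ C k, ∀ c' ∈ C k, ‖s + (1 / 2 : ℝ) ^ k • c‖ ≤ ‖s + (1 / 2 : ℝ) ^ k • c'‖ + ε k := by
  let V : Set ℝ := (fun c : X => ‖s + (1 / 2 : ℝ) ^ k • c‖) '' C k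
  have hVne : V.Nonempty := (hne k).image _
  have hVb : BddBelow V := ⟨0, by rintro _ ⟨c, _, rfl⟩; exact norm_nonneg _⟩
  obtain ⟨_, ⟨c, hc, rfl⟩, hlt⟩ := exists_lt_of_csInf_lt hVne
    (show sInf V < sInf V + ε k by linarith [hε k])
  refine ⟨c, hc, fun c' hc' => ?_⟩
  have := csInf_le hVb ⟨c', hc', rfl⟩
  simp only at hlt this
  linarith

/-- A Simons-type inequality: bounded sequences going to zero on a boundary have convex
combinations of small norm. -/
theorem simons [CompleteSpace X] (B : Set (WeakDual ℝ X)) (hBK : B ⊆ KK X)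
    (hB : ∀ x : X, ∃ b ∈ B, b x = ‖x‖)
    (D : ℕ → X) (M : ℝ) (hM : ∀ n, ‖D n‖ ≤ M)
    (hD : ∀ b ∈ B, Tendsto (fun n => b (D n)) atTop (𝓝 0))
    (δ : ℝ) (hδ : 0 < δ) (h : ∀ y ∈ convexHull ℝ (Set.range D), δ ≤ ‖y‖) : False := by
  set C : ℕ → Set X := fun k => convexHull ℝ (D '' Set.Ici k) with hC
  have hne : ∀ k, (C k).Nonempty := fun k =>
    ⟨D k, subset_convexHull ℝ _ ⟨k, Set.mem_Ici.mpr le_rfl, rfl⟩⟩
  have hCconv : ∀ k, Convex ℝ (C k) := fun k => convex_convexHull ℝ _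
  have hCmono : ∀ k l, k ≤ l → C l ⊆ C k := by
    intro k l hkl
    apply convexHull_mono
    apply Set.image_mono
    exact Set.Ici_subset_Ici.mpr hkl
  have hC0 : C 0 ⊆ convexHull ℝ (Set.range D) := convexHull_mono (Set.image_subset_range _ _)
  have hCb : ∀ k, ∀ y ∈ C k, ‖y‖ ≤ M := by
    intro k y hy
    have : C k ⊆ Metric.closedBall 0 M := by
      apply convexHull_min _ (convex_closedBall _ _)
      rintro _ ⟨n, _, rfl⟩
      simpa using hM n
    simpa using this hy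
  -- the errors
  set ε : ℕ → ℝ := fun k => (1 / 4 : ℝ) ^ k * (δ / 4) with hε
  have hεpos : ∀ k, 0 < ε k := fun k => by rw [hε]; positivity
  choose pick hpick1 hpick2 using exists_pick C hne ε hεpos
  -- the sequence
  let s : ℕ → X := fun n => Nat.rec (0 : X) (fun k s => s + (1 / 2 : ℝ) ^ (k + 1) • pick k s) n
  have hs0 : s 0 = 0 := rfl
  have hs1 : ∀ k, s (k + 1) = s k + (1 / 2 : ℝ) ^ (k + 1) • pick k (s k) := fun k => rfl
  set g : ℕ → X := fun k => pick k (s k) with hg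
  have hgC : ∀ k, g k ∈ C k := fun k => hpick1 k (s k)
  have hgmin : ∀ k, ∀ c ∈ C k,
      ‖s k + (1 / 2 : ℝ) ^ k • g k‖ ≤ ‖s k + (1 / 2 : ℝ) ^ k • c‖ + ε k :=
    fun k c hc => hpick2 k (s k) c hc
  have hs1' : ∀ k, s (k + 1) = s k + (1 / 2 : ℝ) ^ (k + 1) • g k := hs1
  clear_value s
  have hM0 : 0 ≤ M := (norm_nonneg _).trans (hM 0)
  -- convergence
  have hcauchy : CauchySeq s := by
    apply cauchySeq_of_le_geometric_two (C := M)
    intro n
    rw [dist_eq_norm, hs1', sub_add_cancel_left, norm_neg, norm_smul, Real.norm_eq_abs,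
      abs_of_nonneg (by positivity)]
    have e : M / 2 / 2 ^ n = (1 / 2 : ℝ) ^ (n + 1) * M := by
      rw [one_div, inv_pow, pow_succ]
      field_simp
    rw [e]
    exact mul_le_mul_of_nonneg_left (hCb n _ (hgC n)) (by positivity)
  obtain ⟨G, hG⟩ := cauchySeq_tendsto_of_complete hcauchy
  have hhalf : Tendsto (fun n : ℕ => (1 / 2 : ℝ) ^ n) atTop (𝓝 0) :=
    tendsto_pow_atTop_nhds_zero_of_lt_one (by norm_num) (by norm_num)
  -- membership
  have hmem : ∀ k n, k ≤ n → ∀ y ∈ C n, ∃ c ∈ C k,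
      s n + (1 / 2 : ℝ) ^ n • y = s k + (1 / 2 : ℝ) ^ k • c := by
    intro k n hkn
    induction n, hkn using Nat.le_induction with
    | base => intro y hy; exact ⟨y, hy, rfl⟩
    | succ n hkn ih =>
      intro y hy
      obtain ⟨c, hc, he⟩ := ih ((1 / 2 : ℝ) • g n + (1 / 2 : ℝ) • y)
        (hCconv n (hgC n) (hCmono n (n + 1) (Nat.le_succ n) hy) (by norm_num) (by norm_num)
          (by norm_num))
      refine ⟨c, hc, ?_⟩
      rw [← he, hs1', pow_succ]
      module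
  -- tails converge
  have htail : Tendsto (fun n => s n + (1 / 2 : ℝ) ^ n • D n) atTop (𝓝 G) := by
    have : Tendsto (fun n => (1 / 2 : ℝ) ^ n • D n) atTop (𝓝 0) := by
      apply squeeze_zero_norm (a := fun n => (1 / 2 : ℝ) ^ n * M)
      · intro n
        rw [norm_smul, Real.norm_eq_abs, abs_of_nonneg (by positivity)]
        exact mul_le_mul_of_nonneg_left (hM n) (by positivity)
      · simpa using hhalf.mul_const M
    simpa using hG.add this
  have htailn := htail.norm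
  have hDC : ∀ n, D n ∈ C n := fun n => subset_convexHull ℝ _ ⟨n, Set.mem_Ici.mpr le_rfl, rfl⟩
  have hGδ : δ ≤ ‖G‖ := by
    apply ge_of_tendsto' htailn
    intro n
    obtain ⟨c, hc, he⟩ := hmem 0 n (Nat.zero_le n) (D n) (hDC n)
    rw [he, hs0, zero_add, pow_zero, one_smul]
    exact h c (hC0 hc)
  have hy : ∀ k, ‖s k + (1 / 2 : ℝ) ^ k • g k‖ ≤ ‖G‖ + ε k := by
    intro k
    have ht2 := htailn.add_const (ε k)
    apply ge_of_tendsto ht2
    filter_upwards [eventually_ge_atTop k] with n hn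
    obtain ⟨c, hc, he⟩ := hmem k n hn (D n) (hDC n)
    rw [he]
    exact hgmin k c hc
  have hsn : ∀ k, ‖s k‖ ≤ (1 - (1 / 2 : ℝ) ^ k) * ‖G‖ +
      (1 / 2 : ℝ) ^ k * ((1 - (1 / 2 : ℝ) ^ k) * (δ / 2)) := by
    intro k
    induction k with
    | zero => rw [hs0]; simp
    | succ k ih =>
      have e : s (k + 1) = (1 / 2 : ℝ) • s k + (1 / 2 : ℝ) • (s k + (1 / 2 : ℝ) ^ k • g k) := by
        rw [hs1', pow_succ]
        module
      rw [e]
      refine (norm_add_le _ _).trans ?_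
      rw [norm_smul, norm_smul, Real.norm_eq_abs, abs_of_nonneg (by norm_num : (0 : ℝ) ≤ 1 / 2)]
      have h1 := hy k
      have h2 : ε k = (1 / 2 : ℝ) ^ k * ((1 / 2 : ℝ) ^ k * (δ / 4)) := by
        rw [hε]
        simp only
        rw [← mul_assoc, ← mul_pow]
        norm_num
      rw [h2] at h1
      rw [pow_succ]
      set q := (1 / 2 : ℝ) ^ k with hq
      nlinarith
  -- the final contradiction
  obtain ⟨b, hb, hbG⟩ := hB G
  have hev : ∀ᶠ n in atTop, b (D n) < δ / 4 := (hD b hb).eventually_lt_const (by positivity)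
  obtain ⟨k, hk⟩ := eventually_atTop.mp hev
  have hbC : ∀ y ∈ C k, b y ≤ δ / 4 := by
    intro y hy
    have : C k ⊆ {y | b y ≤ δ / 4} := by
      apply convexHull_min
      · rintro _ ⟨n, hn, rfl⟩
        exact (hk n hn).le
      · exact convex_halfSpace_le (IsLinearMap.mk (map_add b) (map_smul b)) _
    exact this hy
  have hbs : ∀ n, k ≤ n → b (s n) ≤ b (s k) + ((1 / 2 : ℝ) ^ k - (1 / 2 : ℝ) ^ n) * (δ / 4) := by
    intro n hn
    induction n, hn using Nat.le_induction with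
    | base => simp
    | succ n hn ih =>
      rw [hs1', map_add, map_smul, smul_eq_mul]
      have h1 := hbC (g n) (hCmono k n hn (hgC n))
      have h2 := mul_le_mul_of_nonneg_left h1 (by positivity : (0 : ℝ) ≤ (1 / 2 : ℝ) ^ (n + 1))
      rw [pow_succ] at h2 ⊢
      linarith
  have hbGle : b G ≤ b (s k) + ((1 / 2 : ℝ) ^ k - 0) * (δ / 4) := by
    have h1 : Tendsto (fun n => b (s n)) atTop (𝓝 (b G)) :=
      ((map_continuous b).tendsto G).comp hG
    have h2 : Tendsto (fun n : ℕ => b (s k) + ((1 / 2 : ℝ) ^ k - (1 / 2 : ℝ) ^ n) * (δ / 4)) atTop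
        (𝓝 (b (s k) + ((1 / 2 : ℝ) ^ k - 0) * (δ / 4))) :=
      ((tendsto_const_nhds.sub hhalf).mul_const _).const_add _
    apply le_of_tendsto_of_tendsto h1 h2
    filter_upwards [eventually_ge_atTop k] with n hn
    exact hbs n hn
  have h3 := hsn k
  have h4 : b (s k) ≤ ‖s k‖ := (mem_KK.mp (hBK hb)) _
  have hq : 0 < (1 / 2 : ℝ) ^ k := by positivity
  set q := (1 / 2 : ℝ) ^ k with hqdef
  rw [hbG] at hbGle
  have h5 : q * ‖G‖ ≤ q * ((1 - q) * (δ / 2)) + q * (δ / 4) := by linarith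
  have h6 : ‖G‖ ≤ (1 - q) * (δ / 2) + δ / 4 := by
    rw [← mul_add] at h5
    exact le_of_mul_le_mul_left h5 hq
  have h7 : (1 - q) * (δ / 2) ≤ δ / 2 := by
    have : 0 ≤ q * (δ / 2) := by positivity
    linarith
  linarith

end Pool.Agent.StepIso
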