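import Mathlib
import Pool.Agent.StepIso.Coord
import Pool.Agent.StepIso.Simons

set_option autoImplicit false

open Filter Topology

namespace Pool.Agent.StepIso

variable {X : Type*} [NormedAddCommGroup X] [NormedSpace ℝ X]

/-- each coordinate of `T` is continuous at `0` -/
lemma coord_cont [Nontrivial X] {T : X ≃ X} (hT : PLt T) (hT0 : T 0 = 0) {ν : WeakDual ℝ X}
    (hν : ν ∈ Ext X) : Tendsto (fun x => ν (T x)) (𝓝 0) (𝓝 0) := by
  obtain ⟨μ, hμ, M1, M2, -⟩ := coord hT hT0 hν
  obtain ⟨u, hu⟩ := ext_pos hν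
  have key : ∀ a : ℝ, 0 < a → (∃ y, 0 < μ y ∧ ν (T y) = a) ∧ (∃ y, μ y < 0 ∧ ν (T y) = -a) := by
    intro a ha
    constructor
    · refine ⟨T.symm ((a / ν u) • u), ?_, ?_⟩
      · have := M2 0 (T.symm ((a / ν u) • u)) (by
          rw [T.apply_symm_apply, hT0, map_zero, map_smul, smul_eq_mul,
            div_mul_cancel₀ _ hu.ne']
          exact ha)
        rwa [map_zero] at this
      · rw [T.apply_symm_apply, map_smul, smul_eq_mul, div_mul_cancel₀ _ hu.ne']
    · refine ⟨T.symm ((-a / ν u) • u), ?_, ?_⟩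
      · have := M2 (T.symm ((-a / ν u) • u)) 0 (by
          rw [T.apply_symm_apply, hT0, map_zero, map_smul, smul_eq_mul,
            div_mul_cancel₀ _ hu.ne']
          linarith)
        rwa [map_zero] at this
      · rw [T.apply_symm_apply, map_smul, smul_eq_mul, div_mul_cancel₀ _ hu.ne']
  have hμc : Tendsto (fun x => μ x) (𝓝 0) (𝓝 0) := by
    have := (map_continuous μ).tendsto 0
    rwa [map_zero] at this
  rw [Metric.tendsto_nhds]
  intro ε hε
  obtain ⟨⟨y1, hy1, hy1'⟩, ⟨y2, hy2, hy2'⟩⟩ := key (ε / 2) (by positivity)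
  filter_upwards [hμc.eventually_lt_const hy1, hμc.eventually_const_lt hy2] with x h1 h2
  have e1 := M1 _ _ h1
  have e2 := M1 _ _ h2
  rw [hy1'] at e1
  rw [hy2'] at e2
  rw [Real.dist_eq, sub_zero, abs_lt]
  constructor <;> linarith

/-- The key statement: a step isometry fixing the origin is continuous at the origin. -/
theorem cont_zero [CompleteSpace X] [Nontrivial X] {T : X ≃ X} (hT : PLt T) (hT0 : T 0 = 0) :
    Tendsto (fun x => T x) (𝓝 0) (𝓝 0) := by
  by_contra hcon
  rw [Metric.tendsto_nhds_nhds] at hcon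
  push Not at hcon
  obtain ⟨δ, hδ, hcon⟩ := hcon
  have hx : ∀ n : ℕ, ∃ x : X, ‖x‖ < 1 / ((n : ℝ) + 1) ∧ δ ≤ ‖T x‖ := by
    intro n
    obtain ⟨x, hx1, hx2⟩ := hcon (1 / ((n : ℝ) + 1)) (by positivity)
    rw [dist_zero_right] at hx1 hx2
    exact ⟨x, hx1, hx2⟩
  choose x hx1 hx2 using hx
  choose ν hν hνx using fun n => exists_ext_norming (T (x n))
  choose μ hμ M1 M2 I2 using fun n => coord hT hT0 (hν n)
  have hbig : ∀ (n : ℕ) (y : X), 1 / ((n : ℝ) + 1) < μ n y → δ < ν n (T y) := by
    intro n y hy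
    have h1 := (mem_KK.mp (extremePoints_subset (hμ n))) (x n)
    have h2 := M1 n (x n) y (by linarith [hx1 n])
    rw [hνx] at h2
    linarith [hx2 n]
  by_cases hcase : ∃ e : X, ∃ᶠ n in atTop, 1 ≤ μ n e
  · -- case 1
    obtain ⟨e, he⟩ := hcase
    set D : ℕ → X := fun j => T ((1 / ((j : ℝ) + 1)) • e) - T (-((1 / ((j : ℝ) + 1)) • e)) with hD
    obtain ⟨m, hm⟩ := exists_nat_gt ‖e‖
    have hnj : ∀ j : ℕ, ‖(1 / ((j : ℝ) + 1)) • e‖ ≤ ‖e‖ := by
      intro j
      rw [norm_smul, Real.norm_eq_abs, abs_of_nonneg (by positivity)]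
      have : 1 / ((j : ℝ) + 1) ≤ 1 := by
        rw [div_le_one (by positivity)]
        have : (0 : ℝ) ≤ j := Nat.cast_nonneg j
        linarith
      exact mul_le_of_le_one_left (norm_nonneg _) this
    have hTb : ∀ y : X, ‖y‖ < m → ‖T y‖ < m := by
      intro y hy
      have := (hT m y 0).mp (by rwa [sub_zero])
      rwa [hT0, sub_zero] at this
    have hDb : ∀ j, ‖D j‖ ≤ m + m := by
      intro j
      refine (norm_sub_le _ _).trans ?_
      have h1 := hTb ((1 / ((j : ℝ) + 1)) • e) (lt_of_le_of_lt (hnj j) hm)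
      have h2 := hTb (-((1 / ((j : ℝ) + 1)) • e)) (by
        rw [norm_neg]
        exact lt_of_le_of_lt (hnj j) hm)
      linarith
    have hlim : Tendsto (fun j : ℕ => (1 / ((j : ℝ) + 1)) • e) atTop (𝓝 0) := by
      have := (tendsto_one_div_add_atTop_nhds_zero_nat (𝕜 := ℝ)).smul_const e
      rwa [zero_smul] at this
    have hDlim : ∀ b ∈ Ext X, Tendsto (fun n => b (D n)) atTop (𝓝 0) := by
      intro b hb
      have h0 := coord_cont hT hT0 hb
      have h1 := h0.comp hlim
      have h2 : Tendsto (fun j : ℕ => -((1 / ((j : ℝ) + 1)) • e)) atTop (𝓝 0) := by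
        have := hlim.neg
        rwa [neg_zero] at this
      have h3 := h0.comp h2
      have h4 := h1.sub h3
      rw [sub_zero] at h4
      refine h4.congr ?_
      intro j
      show b (T _) - b (T _) = b (D j)
      rw [hD]
      simp only [map_sub]
    apply simons (Ext X) extremePoints_subset exists_ext_norming D _ hDb hDlim δ hδ
    intro y hy
    -- y is a convex combination of finitely many D j
    have hfin : ∃ N : ℕ, y ∈ convexHull ℝ (D '' Set.Iio N) := by
      have h1 : convexHull ℝ (Set.range D) ⊆ ⋃ N : ℕ, convexHull ℝ (D '' Set.Iio N) := by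
        apply convexHull_min
        · rintro _ ⟨j, rfl⟩
          rw [Set.mem_iUnion]
          exact ⟨j + 1, subset_convexHull ℝ _ ⟨j, Set.mem_Iio.mpr (Nat.lt_succ_self j), rfl⟩⟩
        · apply Directed.convex_iUnion
          · apply Monotone.directed_le
            intro a b hab
            apply convexHull_mono
            apply Set.image_mono
            exact Set.Iio_subset_Iio hab
          · intro i
            exact convex_convexHull ℝ _
      have := h1 hy
      rwa [Set.mem_iUnion] at this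
    obtain ⟨N, hN⟩ := hfin
    obtain ⟨n, hn1, hn2⟩ := (he.and_eventually (eventually_ge_atTop N)).exists
    have hDj : ∀ j, j < N → δ ≤ ν n (D j) := by
      intro j hj
      have hjn : (j : ℝ) + 1 ≤ n := by exact_mod_cast (lt_of_lt_of_le hj hn2)
      have hj0 : (0 : ℝ) < (j : ℝ) + 1 := by positivity
      have h1 : δ < ν n (T ((1 / ((j : ℝ) + 1)) • e)) := by
        apply hbig
        rw [map_smul, smul_eq_mul]
        have h2 : 1 / ((n : ℝ) + 1) < 1 / ((j : ℝ) + 1) := by
          apply one_div_lt_one_div_of_lt hj0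
          linarith
        have h3 : 1 / ((j : ℝ) + 1) ≤ 1 / ((j : ℝ) + 1) * μ n e := by
          have : (0 : ℝ) < 1 / ((j : ℝ) + 1) := by positivity
          nlinarith
        linarith
      have h2 : ν n (T (-((1 / ((j : ℝ) + 1)) • e))) < 0 := by
        have := M1 n (-((1 / ((j : ℝ) + 1)) • e)) 0 (by
          rw [map_zero, map_neg, map_smul, smul_eq_mul]
          have : (0 : ℝ) < 1 / ((j : ℝ) + 1) * μ n e := by
            have : (0 : ℝ) < 1 / ((j : ℝ) + 1) := by positivity
            nlinarith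
          linarith)
        rwa [hT0, map_zero] at this
      rw [hD]
      simp only [map_sub]
      linarith
    have hsub : convexHull ℝ (D '' Set.Iio N) ⊆ {y | δ ≤ ν n y} := by
      apply convexHull_min
      · rintro _ ⟨j, hj, rfl⟩
        exact hDj j hj
      · exact convex_halfSpace_ge (IsLinearMap.mk (map_add (ν n)) (map_smul (ν n))) _
    have h1 := hsub hN
    have h2 := (mem_KK.mp (extremePoints_subset (hν n))) y
    simp only [Set.mem_ofPred_eq] at h1
    linarith
  · -- case 2
    push Not at hcase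
    have hμ0 : ∀ (e : X) (ε : ℝ), 0 < ε → ∀ᶠ n in atTop, μ n e < ε := by
      intro e ε hε
      have h1 := hcase ((1 / ε) • e)
      filter_upwards [h1] with n hn
      rw [map_smul, smul_eq_mul, one_div, inv_mul_lt_iff₀ hε, mul_one] at hn
      exact hn
    have hν0 : ∀ w : X, ∀ᶠ n in atTop, ν n w < δ := by
      intro w
      obtain ⟨C, hC⟩ := exists_nat_gt (2 / δ)
      have hC0 : (0 : ℝ) < C := lt_trans (by positivity) hC
      filter_upwards [hμ0 (T.symm ((C : ℝ) • w)) 1 one_pos] with n hn
      have h1 : ν n ((C : ℝ) • w) ≤ 1 := by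
        by_contra hc
        push Not at hc
        have := I2 n 1 (T.symm ((C : ℝ) • w)) (by
          rw [T.apply_symm_apply, Nat.cast_one]
          exact hc)
        rw [Nat.cast_one] at this
        linarith
      rw [map_smul, smul_eq_mul] at h1
      have h2 : ν n w ≤ 1 / C := by
        rw [le_div_iff₀ hC0, mul_comm]
        exact h1
      have h3 : 1 / (C : ℝ) < δ := by
        rw [div_lt_iff₀ hC0]
        rw [div_lt_iff₀ hδ] at hC
        linarith
      linarith
    -- Baire
    set O : ℕ → Set X := fun N => {y | ∃ n, N ≤ n ∧ 1 / ((n : ℝ) + 1) < μ n y} with hO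
    have hOopen : ∀ N, IsOpen (O N) := by
      intro N
      have : O N = ⋃ n, ⋃ (_ : N ≤ n), {y | 1 / ((n : ℝ) + 1) < μ n y} := by
        ext y
        simp [hO]
      rw [this]
      exact isOpen_iUnion fun n => isOpen_iUnion fun _ =>
        isOpen_lt continuous_const (map_continuous (μ n))
    have hOdense : ∀ N, Dense (O N) := by
      intro N
      rw [Metric.dense_iff]
      intro y r hr
      have h1 := hμ0 (-y) (r / 4) (by positivity)
      have h2 : ∀ᶠ n : ℕ in atTop, 1 / ((n : ℝ) + 1) < r / 4 :=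
        (tendsto_one_div_add_atTop_nhds_zero_nat (𝕜 := ℝ)).eventually_lt_const (by positivity)
      obtain ⟨n, hn1, hn2, hn3⟩ := (h1.and (h2.and (eventually_ge_atTop N))).exists
      obtain ⟨v, hv, hv'⟩ := ext_near (hμ n) (η := 1 / 10) (by norm_num)
      refine ⟨y + (3 / 4 * r) • v, ?_, n, hn3, ?_⟩
      · rw [Metric.mem_ball, dist_eq_norm, add_sub_cancel_left, norm_smul, Real.norm_eq_abs,
          abs_of_nonneg (by positivity)]
        have : 3 / 4 * r * ‖v‖ ≤ 3 / 4 * r := mul_le_of_le_one_right (by positivity) hv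
        linarith
      · rw [map_add, map_smul, smul_eq_mul]
        rw [map_neg] at hn1
        have : 3 / 4 * r * (1 - 1 / 10) ≤ 3 / 4 * r * μ n v :=
          mul_le_mul_of_nonneg_left hv'.le (by positivity)
        linarith
    obtain ⟨y, hy⟩ := (dense_iInter_of_isOpen_nat hOopen hOdense).nonempty
    rw [Set.mem_iInter] at hy
    obtain ⟨N, hN⟩ := eventually_atTop.mp (hν0 (T y))
    obtain ⟨n, hn1, hn2⟩ := hy N
    have h1 := hN n hn1
    have h2 := hbig n y hn2
    linarith

/-- Step-isometries of Banach spaces are continuous, real scalars. -/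
theorem cont_real [CompleteSpace X] (T : X ≃ X)
    (hT : ∀ x y, ⌊‖x - y‖⌋ = ⌊‖T x - T y‖⌋) : Continuous T := by
  rcases subsingleton_or_nontrivial X with hX | hX
  · exact continuous_of_discreteTopology
  · rw [continuous_iff_continuousAt]
    intro a
    -- base point change
    let T' : X ≃ X := ((Equiv.addRight a).trans T).trans (Equiv.subRight (T a))
    have hT'x : ∀ x, T' x = T (x + a) - T a := fun x => rfl
    have hP : PLt T' := by
      intro n x y
      rw [hT'x, hT'x, sub_sub_sub_cancel_right]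
      have h := hT (x + a) (y + a)
      rw [add_sub_add_right_eq_sub] at h
      have e1 : ‖x - y‖ < (n : ℝ) ↔ ⌊‖x - y‖⌋ < (n : ℤ) := by
        rw [Int.floor_lt, Int.cast_natCast]
      have e2 : ‖T (x + a) - T (y + a)‖ < (n : ℝ) ↔ ⌊‖T (x + a) - T (y + a)‖⌋ < (n : ℤ) := by
        rw [Int.floor_lt, Int.cast_natCast]
      rw [e1, e2, h]
    have h0 : T' 0 = 0 := by rw [hT'x, zero_add, sub_self]
    have hc := cont_zero hP h0
    rw [ContinuousAt, Metric.tendsto_nhds_nhds]
    rw [Metric.tendsto_nhds_nhds] at hc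
    intro ε hε
    obtain ⟨δ, hδ, hd⟩ := hc ε hε
    refine ⟨δ, hδ, ?_⟩
    intro x hx
    have := hd (x := x - a) (by rwa [dist_zero_right, ← dist_eq_norm])
    rw [hT'x, sub_add_cancel, dist_zero_right, ← dist_eq_norm] at this
    exact this

end Pool.Agent.StepIso
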